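import Pool.Agent.Y842.CX.Rot
import Pool.Agent.V11210.LS.Main

/-!
# The logarithmically averaged Sarnak conjecture: systems with a compact group of symmetries (helper210)

Tao's logarithmic form of Sarnak's conjecture: `(1 / log N) ∑_{n ≤ N} μ(n) F(T^n x) / n → 0` for every system of zero
entropy. We prove it, for all `N → ∞` without an exceptional set, for every system `(X, T)` with a compact group `K`
of symmetries (`T(k x) = k T(x)`, the action of `K` on `X` need not be free) such that the orbit of `x` in the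
quotient `X / K` is almost periodic at almost all scales; for instance all compact group extensions of rotations of
compact abelian groups by arbitrary continuous cocycles. The proof rests on a principle of independent interest: for
the orbit of `x` under `T`, logarithmic two-point correlations with the weights `c(T^n x)`, `c` continuous and
`K`-invariant, control the logarithmic sums with all weights `F(T^n x)`, `F` continuous.
-/

set_option autoImplicit false

open Finset Filter

open Pool.Agent.V11210.LS (LDZ dn_fin short_sym kills_log concl_long concl_short kills_of_tendsto)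

namespace Pool.Agent.Results.MP_3e612f_nt.CompactSymmetries

open Classical in
/-- the set `A` of scales has upper logarithmic density at most `ε`: `∑_{n ≤ N, n ∈ A} 1 / n ≤ ε log N` for all
large `N` -/
def FewScales (A : Set ℕ) (ε : ℝ) : Prop :=
  ∃ N₁ : ℕ, ∀ N : ℕ, N₁ ≤ N → (∑ n ∈ Icc 1 N, if n ∈ A then (1 : ℝ) / n else 0) ≤ ε * Real.log N

/-- `e(x) = exp(2 π i x)` -/
noncomputable def e (x : ℝ) : ℂ := Complex.exp (2 * Real.pi * x * Complex.I)

/-- the sequence `b` is almost periodic at almost all scales: for every `ε > 0` there are `J` and a set `A` of upper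
logarithmic density at most `ε` such that at every scale `N ∉ A` there are `J` frequencies `α_j` and coefficients
`ρ_j(n)`, bounded by `J` and of total variation at most `J` on `[0, N]`, with
`∑_{n < N} |b(n) - ∑_j ρ_j(n) e(α_j n)| ≤ ε N`; frequencies and coefficients may depend on `N` -/
def AlmostPeriodic (b : ℕ → ℂ) : Prop :=
  ∀ ε : ℝ, 0 < ε → ∃ (J : ℕ) (A : Set ℕ), FewScales A ε ∧ ∀ N : ℕ, N ∉ A →
    ∃ (ρ : Fin J → ℕ → ℂ) (α : Fin J → ℝ), (∀ j n, ‖ρ j n‖ ≤ J) ∧
      (∀ j, ∑ n ∈ range N, ‖ρ j (n + 1) - ρ j n‖ ≤ J) ∧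
        ∑ n ∈ range N, ‖b n - ∑ j, ρ j n * e (α j * n)‖ ≤ ε * N

/-- logarithmic orthogonality of the weight `u` and the sequence `b`:
(1) `(1 / log N) ∑_{n ≤ N} u(n) b(n) / n → 0`;
(2) the same in short intervals, on average: for `H ≥ H₀(ε)` and all large `N`,
`(1 / log N) ∑_{n ≤ N} (1 / n) |(1 / H) ∑_{m ≤ H} u(n + m) b(n + m)| ≤ ε` -/
def LogOrthogonal (u b : ℕ → ℂ) : Prop :=
  Tendsto (fun N : ℕ => (1 / (Real.log N : ℂ)) * ∑ n ∈ Icc 1 N, u n * b n / n) atTop (nhds 0) ∧
  (∀ ε : ℝ, 0 < ε → ∃ H₀ : ℕ, ∀ H : ℕ, H₀ ≤ H → ∃ N₀ : ℕ, ∀ N : ℕ, N₀ ≤ N →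
    ∑ n ∈ Icc 1 N, ‖∑ m ∈ Icc 1 H, u (n + m) * b (n + m)‖ / n ≤ ε * (H * Real.log N))

/-- the logarithmic two-point correlations of `u` with the weight `b` tend to `0`:
`(1 / log N) ∑_{n ≤ N} conj(u(n)) u(n + k) b(n) / n → 0` for every `k ≥ 1` -/
def LogUncorrelated (u b : ℕ → ℂ) : Prop := ∀ k : ℕ, 1 ≤ k →
  Tendsto (fun N : ℕ => (1 / (Real.log N : ℂ)) * ∑ n ∈ Icc 1 N, (starRingEnd ℂ) (u n) * u (n + k) * b n / n)
    atTop (nhds 0)

/-- the extension `T(y, z) = (S y, φ(y) z)` -/
def T {Y K Z : Type} [SMul K Z] (S : Y → Y) (φ : Y → K) (x : Y × Z) : Y × Z := (S x.1, φ x.1 • x.2)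

/-- **Theorem.** Let `X` be a compact Hausdorff space, `T : X → X` continuous, `K` a compact Hausdorff group acting
continuously on `X` by symmetries of `T`: `T(k x) = k T(x)`. Let `x ∈ X`.
(A) (principle) Let `|u(n)| ≤ 1`. If the logarithmic two-point correlations of `u` with the weights `c(T^n x)` tend
to `0` for all `K`-invariant `c ∈ C(X)`, then `u` is logarithmically orthogonal to `F(T^n x)` for all `F ∈ C(X)`.
(B) If the sequences `c(T^n x)` are almost periodic at almost all scales for all `K`-invariant `c ∈ C(X)`, then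
`μ` and `λ` are logarithmically orthogonal to `F(T^n x)` for all `F ∈ C(X)`.
(C) In particular `μ` and `λ` are logarithmically orthogonal to `F(T^n (y, z))` for all compact group extensions
`T(y, z) = (a y, φ(y) z)` of rotations of compact Hausdorff abelian groups `Y`, `φ : Y → K` an arbitrary continuous
map to a compact Hausdorff group acting continuously on `Z`, all points `(y, z)` and all `F ∈ C(Y × Z)`. -/
theorem result :
    (∀ (X K : Type) [TopologicalSpace X] [CompactSpace X] [T2Space X] [TopologicalSpace K] [Group K]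
      [IsTopologicalGroup K] [CompactSpace K] [T2Space K] [MulAction K X] [ContinuousSMul K X] (T : X → X),
      Continuous T → (∀ (k : K) (x : X), T (k • x) = k • T x) → ∀ x : X,
        (∀ u : ℕ → ℂ, (∀ n, ‖u n‖ ≤ 1) →
          (∀ c : C(X, ℂ), (∀ (k : K) (x : X), c (k • x) = c x) → LogUncorrelated u (fun n => c (T^[n] x))) →
            ∀ F : C(X, ℂ), LogOrthogonal u (fun n => F (T^[n] x))) ∧
        ((∀ c : C(X, ℂ), (∀ (k : K) (x : X), c (k • x) = c x) → AlmostPeriodic (fun n => c (T^[n] x))) →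
          ∀ F : C(X, ℂ),
            LogOrthogonal (fun n => (ArithmeticFunction.moebius n : ℂ)) (fun n => F (T^[n] x)) ∧
            LogOrthogonal (fun n => (-1) ^ ArithmeticFunction.cardFactors n) (fun n => F (T^[n] x)))) ∧
    (∀ (Y K Z : Type) [CommGroup Y] [TopologicalSpace Y] [IsTopologicalGroup Y] [CompactSpace Y] [T2Space Y]
        [TopologicalSpace K] [Group K] [IsTopologicalGroup K] [CompactSpace K] [T2Space K] [TopologicalSpace Z]
        [MulAction K Z] [ContinuousSMul K Z] (a : Y) (φ : Y → K), Continuous φ →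
        ∀ (y : Y) (z : Z) (F : C(Y × Z, ℂ)),
          LogOrthogonal (fun n => (ArithmeticFunction.moebius n : ℂ)) (fun n => F ((T (fun y => a * y) φ)^[n] (y, z))) ∧
          LogOrthogonal (fun n => (-1) ^ ArithmeticFunction.cardFactors n)
            (fun n => F ((T (fun y => a * y) φ)^[n] (y, z)))) := by
  obtain ⟨E₁, hE₁, h1⟩ := Pool.Agent.Y842.PH.one_E (Pool.Agent.Y304.U.avc Pool.Agent.Y304.U.pw)
    Pool.Agent.TH823.MRS.mob Pool.Agent.TH823.MRS.mob_bdd Pool.Agent.TH823.MRS.mob_flip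
    Pool.Agent.TH823.MRS.expo_mob
  obtain ⟨E₂, hE₂, h2⟩ := Pool.Agent.Y842.PH.one_E (Pool.Agent.Y304.U.avc Pool.Agent.Y304.U.pw)
    Pool.Agent.H376R2.MR.lam Pool.Agent.Y842.EL.abs_lam Pool.Agent.TH823.MRS.lam_flip Pool.Agent.TH823.MRS.expo_lam
  have hlam : ∀ n, ((Pool.Agent.H376R2.MR.lam n : ℤ) : ℂ) = (-1) ^ ArithmeticFunction.cardFactors n := by
    intro n
    unfold Pool.Agent.H376R2.MR.lam
    push_cast
    rfl
  -- the two weights
  have key : ∀ (f : ℕ → ℤ) (hb : ∀ n, |f n| ≤ 1) (E : Set ℕ), LDZ E → (∀ h : ℕ, 1 ≤ h → ∀ ε : ℝ, 0 < ε →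
      ∃ N₀ : ℕ, ∀ N : ℕ, N₀ ≤ N → N ∉ E → ∀ α : ℝ, ‖Pool.Agent.Y842.PH.Cr f h N α‖ ≤ ε * N) →
      ∀ (X K : Type) [TopologicalSpace X] [CompactSpace X] [T2Space X] [TopologicalSpace K] [Group K]
      [IsTopologicalGroup K] [CompactSpace K] [T2Space K] [MulAction K X] [ContinuousSMul K X] (T : X → X),
      Continuous T → (∀ (k : K) (x : X), T (k • x) = k • T x) → ∀ x : X,
      (∀ c : C(X, ℂ), (∀ (k : K) (x : X), c (k • x) = c x) → AlmostPeriodic (fun n => c (T^[n] x))) →
      ∀ F : C(X, ℂ), LogOrthogonal (fun n => (f n : ℂ)) (fun n => F (T^[n] x)) := by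
    intro f hb E hE0 hE X K _ _ _ _ _ _ _ _ _ _ T hT hTK x hc F
    have hf1 : ∀ n, ‖(f n : ℂ)‖ ≤ 1 := by
      intro n
      rw [Complex.norm_intCast]
      exact_mod_cast hb n
    have h3 := short_sym (K := K) hf1 hT hTK x (fun c hcK => kills_log f hb E hE0 hE _ ‖c‖
      (fun n => c.norm_coe_le_norm _) (hc c hcK)) F
    have h4 := concl_long hf1 ‖F‖ (fun n => F.norm_coe_le_norm _) h3
    have h5 := concl_short hf1 ‖F‖ (fun n => F.norm_coe_le_norm _) h3
    exact ⟨h4, h5⟩
  have keyμ := key Pool.Agent.TH823.MRS.mob Pool.Agent.TH823.MRS.mob_bdd E₁ hE₁ h1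
  have keyl := key Pool.Agent.H376R2.MR.lam Pool.Agent.Y842.EL.abs_lam E₂ hE₂ h2
  simp only [hlam] at keyl
  refine ⟨?_, ?_⟩
  · intro X K _ _ _ _ _ _ _ _ _ _ T hT hTK x
    refine ⟨fun u hu hc F => ?_, fun hc F => ⟨keyμ X K T hT hTK x hc F, keyl X K T hT hTK x hc F⟩⟩
    have h3 := short_sym (K := K) hu hT hTK x (fun c hcK => kills_of_tendsto hu ‖c‖
      (fun n => c.norm_coe_le_norm _) (hc c hcK)) F
    have h4 := concl_long hu ‖F‖ (fun n => F.norm_coe_le_norm _) h3
    have h5 := concl_short hu ‖F‖ (fun n => F.norm_coe_le_norm _) h3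
    exact ⟨h4, h5⟩
  · intro Y K Z _ _ _ _ _ _ _ _ _ _ _ _ _ a φ hφ y z F
    let A : MulAction K (Y × K) :=
      { smul := fun k x => (x.1, x.2 * k⁻¹)
        one_smul := fun x => by
          show (x.1, x.2 * (1 : K)⁻¹) = x
          simp
        mul_smul := fun k l x => by
          show (x.1, x.2 * (k * l)⁻¹) = (x.1, x.2 * l⁻¹ * k⁻¹)
          rw [mul_inv_rev, mul_assoc] }
    have hA : @ContinuousSMul K (Y × K) A.toSMul _ _ := by
      refine @ContinuousSMul.mk K (Y × K) A.toSMul _ _ ?_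
      show Continuous fun p : K × (Y × K) => (p.2.1, p.2.2 * p.1⁻¹)
      fun_prop
    have hcomm : ∀ (k : K) (x : Y × K), Pool.Agent.Y842.CX.skew (fun y => a * y) φ (A.toSMul.smul k x) =
        A.toSMul.smul k (Pool.Agent.Y842.CX.skew (fun y => a * y) φ x) := by
      intro k x
      show (a * x.1, φ x.1 * (x.2 * k⁻¹)) = (a * x.1, φ x.1 * x.2 * k⁻¹)
      rw [mul_assoc]
    have hcont : Continuous (Pool.Agent.Y842.CX.skew (fun y : Y => a * y) φ) := by
      unfold Pool.Agent.Y842.CX.skew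
      fun_prop
    have hfst : ∀ n : ℕ, ((Pool.Agent.Y842.CX.skew (fun y : Y => a * y) φ)^[n] (y, 1)).1 = (fun y : Y => a * y)^[n] y := by
      intro n
      induction n with
      | zero => rfl
      | succ n ih =>
        rw [Function.iterate_succ_apply', Function.iterate_succ_apply', ← ih]
        rfl
    have hAP : ∀ c : C(Y × K, ℂ), (∀ (k : K) (x : Y × K), c (A.toSMul.smul k x) = c x) →
        AlmostPeriodic (fun n => c ((Pool.Agent.Y842.CX.skew (fun y : Y => a * y) φ)^[n] (y, 1))) := by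
      intro c hc ε hε
      have e1 : ∀ x : Y × K, c x = c (x.1, 1) := by
        intro x
        have h3 : c (x.1, x.2 * x.2⁻¹) = c x := hc x.2 x
        rw [mul_inv_cancel] at h3
        exact h3.symm
      obtain ⟨J, N₀, h3⟩ := Pool.Agent.Y842.CX.AP_rot a y (⟨fun y => c (y, 1), by fun_prop⟩ : C(Y, ℂ)) ε hε
      refine ⟨J, {N | N < N₀}, ?_, fun N hN => ?_⟩
      · exact dn_fin N₀ ε hε
      · obtain ⟨ρ, α, h4, h5, h6⟩ := h3 N (not_lt.1 hN)
        refine ⟨ρ, α, h4, h5, ?_⟩
        refine le_trans (le_of_eq (sum_congr rfl fun n _ => ?_)) h6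
        have h7 := e1 ((Pool.Agent.Y842.CX.skew (fun y : Y => a * y) φ)^[n] (y, 1))
        rw [hfst] at h7
        show ‖c ((Pool.Agent.Y842.CX.skew (fun y : Y => a * y) φ)^[n] (y, 1)) - _‖ = _
        rw [h7]
        rfl
    let G : C(Y × K, ℂ) := ⟨fun x => F (x.1, x.2 • z), by fun_prop⟩
    have hFG : ∀ n, F ((T (fun y => a * y) φ)^[n] (y, z)) =
        G ((Pool.Agent.Y842.CX.skew (fun y : Y => a * y) φ)^[n] (y, 1)) := by
      intro n
      have h3 := Pool.Agent.Y842.CX.ext_iter (fun y : Y => a * y) φ y z n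
      have h4 : (T (fun y => a * y) φ)^[n] (y, z) = (Pool.Agent.Y842.CX.ext (fun y : Y => a * y) φ)^[n] (y, z) := rfl
      rw [h4, h3]
      rfl
    simp only [hFG]
    exact ⟨@keyμ (Y × K) K _ _ _ _ _ _ _ _ A hA (Pool.Agent.Y842.CX.skew (fun y : Y => a * y) φ) hcont hcomm (y, 1)
        hAP G,
      @keyl (Y × K) K _ _ _ _ _ _ _ _ A hA (Pool.Agent.Y842.CX.skew (fun y : Y => a * y) φ) hcont hcomm (y, 1)
        hAP G⟩

end Pool.Agent.Results.MP_3e612f_nt.CompactSymmetries
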